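import Pool.Agent.H54.CL.Cod
import Pool.Agent.H87.HD.XF

/-!
# MP_e37c09_lc: the cofinalities of the successors in HOD
-/

open Ordinal Cardinal Order Set
open scoped ZFSet

universe u

namespace Pool.Agent.H54.CL

open _root_.HD

variable {t : Ordinal.{u} → Ordinal.{u} → Ordinal.{u}} {K : Cardinal.{u}}

/-! ## Bounds -/

theorem bd1 (hK : K.IsRegular) {w : Ordinal.{u}} (hw : w < K.ord)
    (f : Ordinal.{u} → Ordinal.{u}) (hf : ∀ i ≤ w, f i < K.ord) : ∃ s < K.ord, ∀ i ≤ w, f i ≤ s := by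
  have hlim : IsSuccLimit K.ord := Cardinal.isSuccLimit_ord hK.1
  obtain ⟨s, hs, h⟩ := Pool.Agent.H3.HD.exists_bound (ρ := K.ord) (τ := succ w)
    (by rw [hK.cof_ord]; exact Cardinal.lt_ord.1 (hlim.succ_lt hw)) f
    fun i hi => hf i (Order.lt_succ_iff.1 hi)
  exact ⟨s, hs, fun i hi => h i (Order.lt_succ_iff.2 hi)⟩

theorem bd3 (hK : K.IsRegular) (B : Ordinal.{u} → Ordinal.{u} → Ordinal.{u} → Ordinal.{u})
    (hB : ∀ x < K.ord, ∀ y < K.ord, ∀ z < K.ord, B x y z < K.ord) :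
    ∃ G : Ordinal.{u} → Ordinal.{u}, (∀ w < K.ord, G w < K.ord) ∧
      ∀ w < K.ord, ∀ x ≤ w, ∀ y ≤ w, ∀ z ≤ w, B x y z < G w := by
  have hlim : IsSuccLimit K.ord := Cardinal.isSuccLimit_ord hK.1
  have hex : ∀ w : Ordinal.{u}, ∃ s : Ordinal.{u}, w < K.ord → s < K.ord ∧
      ∀ x ≤ w, ∀ y ≤ w, ∀ z ≤ w, B x y z < s := by
    intro w
    by_cases hw : w < K.ord
    · have h1 : ∀ x : Ordinal.{u}, ∀ y : Ordinal.{u}, ∃ s : Ordinal.{u}, x ≤ w → y ≤ w →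
          s < K.ord ∧ ∀ z ≤ w, B x y z ≤ s := by
        intro x y
        by_cases hx : x ≤ w
        · by_cases hy : y ≤ w
          · obtain ⟨s, hs, h⟩ := bd1 hK hw (B x y) fun z hz =>
              hB x (hx.trans_lt hw) y (hy.trans_lt hw) z (hz.trans_lt hw)
            exact ⟨s, fun _ _ => ⟨hs, h⟩⟩
          · exact ⟨0, fun _ h => absurd h hy⟩
        · exact ⟨0, fun h => absurd h hx⟩
      choose s1 hs1 using h1
      have h2 : ∀ x : Ordinal.{u}, ∃ s : Ordinal.{u}, x ≤ w → s < K.ord ∧ ∀ y ≤ w, s1 x y ≤ s := by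
        intro x
        by_cases hx : x ≤ w
        · obtain ⟨s, hs, h⟩ := bd1 hK hw (s1 x) fun y hy => (hs1 x y hx hy).1
          exact ⟨s, fun _ => ⟨hs, h⟩⟩
        · exact ⟨0, fun h => absurd h hx⟩
      choose s2 hs2 using h2
      obtain ⟨s, hs, h3⟩ := bd1 hK hw s2 fun x hx => (hs2 x hx).1
      refine ⟨succ s, fun _ => ⟨hlim.succ_lt hs, fun x hx y hy z hz => ?_⟩⟩
      exact Order.lt_succ_of_le (((hs1 x y hx hy).2 z hz).trans (((hs2 x hx).2 y hy).trans (h3 x hx)))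
    · exact ⟨0, fun h => absurd h hw⟩
  choose G hG using hex
  exact ⟨G, fun w hw => (hG w hw).1, fun w hw => (hG w hw).2⟩

theorem clb_inter (hK : ℵ₀ < K) (hKr : K.IsRegular) {A B : Set Ordinal.{u}} (hA : Clb K.ord A)
    (hB : Clb K.ord B) : Clb K.ord (A ∩ B) := by
  have hlim : IsSuccLimit K.ord := Cardinal.isSuccLimit_ord hKr.1
  refine ⟨fun a ha => ?_, fun x hx hx0 h => ⟨?_, ?_⟩⟩
  · obtain ⟨x, hx, s, hs0, hsx, hsP, hsy⟩ := Pool.Agent.H3.HD.exists_iter (ρ := K.ord)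
      (by rw [hKr.cof_ord]; exact hK)
      (fun b b' => (∃ z ∈ A, b < z ∧ z < b') ∧ ∃ z ∈ B, b < z ∧ z < b') (fun b hb => by
        obtain ⟨z, hz, hbz, hzA⟩ := hA.unb b hb
        obtain ⟨z', hz', hbz', hzB⟩ := hB.unb b hb
        exact ⟨max (succ z) (succ z'), max_lt (hlim.succ_lt hz) (hlim.succ_lt hz'),
          hbz.trans (lt_of_lt_of_le (Order.lt_succ z) (le_max_left _ _)),
          ⟨z, hzA, hbz, lt_of_lt_of_le (Order.lt_succ z) (le_max_left _ _)⟩,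
          ⟨z', hzB, hbz', lt_of_lt_of_le (Order.lt_succ z') (le_max_right _ _)⟩⟩) a ha
    refine ⟨x, hx, by rw [← hs0]; exact hsx 0, ?_, ?_⟩
    · refine hA.cls x hx (bot_le.trans_lt (hsx 0)) fun y hy => ?_
      obtain ⟨n, hn⟩ := hsy y hy
      obtain ⟨z, hz, h1, h2⟩ := (hsP n).1
      exact ⟨z, h2.trans (hsx _), hn.trans h1, hz⟩
    · refine hB.cls x hx (bot_le.trans_lt (hsx 0)) fun y hy => ?_
      obtain ⟨n, hn⟩ := hsy y hy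
      obtain ⟨z, hz, h1, h2⟩ := (hsP n).2
      exact ⟨z, h2.trans (hsx _), hn.trans h1, hz⟩
  · exact hA.cls x hx hx0 fun y hy => by
      obtain ⟨z, hz, h1, h2⟩ := h y hy
      exact ⟨z, hz, h1, h2.1⟩
  · exact hB.cls x hx hx0 fun y hy => by
      obtain ⟨z, hz, h1, h2⟩ := h y hy
      exact ⟨z, hz, h1, h2.2⟩

/-! ## Sets which are not codes -/

theorem nonZ (hK : ℵ₀ < K) (hKr : K.IsRegular) (A : ZFSet.{u})
    (hA : ¬ ∃ β f, Cod t K.ord β A f) : ∃ b < K.ord, ∀ ξ < K.ord, b ≤ ξ →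
      (∀ a < ξ, ∀ b < ξ, t a b < ξ) → ¬ ∃ β g, Cod t ξ β (A ∩ ξ.toZFSet) g := by
  by_contra hcon
  push Not at hcon
  apply hA
  have key : ∀ b < K.ord, ∃ ξ, b < ξ ∧ ∃ g : Ordinal.{u} → Ordinal.{u}, ∀ x < ξ, ∀ y < ξ,
      ((t x y).toZFSet ∈ A ↔ g x < g y) := by
    intro b hb
    have hlim : IsSuccLimit K.ord := Cardinal.isSuccLimit_ord hKr.1
    obtain ⟨ξ, hξ, hbξ, hcl, β, g, hg⟩ := hcon (succ b) (hlim.succ_lt hb)
    refine ⟨ξ, (Order.lt_succ b).trans_le hbξ, g, fun x hx y hy => ?_⟩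
    rw [← hg.2.2 x hx y hy, ZFSet.mem_inter]
    exact ⟨fun h => ⟨h, toZFSet_mem_toZFSet_iff.2 (hcl x hx y hy)⟩, fun h => h.1⟩
  have hwf : WellFounded fun x y : Iio K.ord => (t x.1 y.1).toZFSet ∈ A := by
    rw [wellFounded_iff_isEmpty_descending_chain]
    refine ⟨fun ⟨s, hs⟩ => ?_⟩
    have hb : (⨆ n, (s n).1) < K.ord := by
      refine Ordinal.lift_iSup_lt_of_lt_cof ?_ fun n => (s n).2
      have hρ : ℵ₀ < K.ord.cof := by rw [hKr.cof_ord]; exact hK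
      simpa using hρ
    obtain ⟨ξ, hξ, g, hg⟩ := key _ hb
    have hsξ : ∀ n, (s n).1 < ξ := fun n => (Ordinal.le_iSup (fun n => (s n).1) n).trans_lt hξ
    have h1 : ∀ n, g (s (n + 1)).1 < g (s n).1 := fun n =>
      (hg _ (hsξ _) _ (hsξ _)).1 (hs n)
    exact (wellFounded_iff_isEmpty_descending_chain.1
      (wellFounded_lt (α := Ordinal.{u}))).false ⟨fun n => g (s n).1, h1⟩
  obtain ⟨β, f, h1, h2, h3⟩ := rank_exists K.ord (fun a b => (t a b).toZFSet ∈ A) hwf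
    (by
      intro a ha b hb c hc hab hcb
      obtain ⟨ξ, hξ, g, hg⟩ := key (max a (max b c)) (max_lt ha (max_lt hb hc))
      have ha' : a < ξ := (le_max_left _ _).trans_lt hξ
      have hb' : b < ξ := ((le_max_left _ _).trans (le_max_right _ _)).trans_lt hξ
      have hc' : c < ξ := ((le_max_right _ _).trans (le_max_right _ _)).trans_lt hξ
      rw [hg _ ha' _ hb'] at hab
      rw [hg _ hc' _ hb', not_lt] at hcb
      rw [hg _ ha' _ hc']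
      exact hab.trans_le hcb)
  exact ⟨β, f, h1, h2, h3⟩

/-! ## The core -/

theorem od_inter {A : ZFSet.{u}} (hA : OD A) (ξ : Ordinal.{u}) : OD (A ∩ ξ.toZFSet) := by
  have : A ∩ ξ.toZFSet = os ξ {a | a.toZFSet ∈ A} := by
    ext z
    rw [ZFSet.mem_inter, mem_os]
    constructor
    · rintro ⟨h1, h2⟩
      obtain ⟨a, ha, rfl⟩ := mem_toZFSet_iff.1 h2
      exact ⟨a, ha, h1, rfl⟩
    · rintro ⟨a, ha, h1, rfl⟩
      exact ⟨h1, toZFSet_mem_toZFSet_iff.2 ha⟩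
  rw [this]
  exact od_os hA.ds ξ

theorem core (hK : ℵ₀ < K) (hKr : K.IsRegular) (hV : VF K) :
    ∃ (C Z : Set Ordinal.{u}) (ρ : Ordinal.{u} → Ordinal.{u})
      (v : Ordinal.{u} → Ordinal.{u} → Ordinal.{u}), Clb K.ord C ∧
      (∀ z ∈ Z, z < K.ord ∧ 0 < ρ z ∧ ρ z < hs K.ord) ∧
      (∀ β, 0 < β → β < hs K.ord → ∃ z ∈ Z, ρ z = β) ∧
      ∀ ξ ∈ C, ξ < K.ord → ω < ξ ∧ IsSuccLimit ξ ∧ (∀ z ∈ Z, z < ξ → 0 < v ξ z ∧ v ξ z < hs ξ) ∧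
        (∀ β, 0 < β → β < hs ξ → ∃ z ∈ Z, z < ξ ∧ v ξ z = β) ∧
        (∀ z ∈ Z, ∀ z' ∈ Z, z < ξ → z' < ξ → (v ξ z < v ξ z' ↔ ρ z < ρ z')) := by
  have hlim : IsSuccLimit K.ord := Cardinal.isSuccLimit_ord hKr.1
  have hKω : ω < K.ord := by
    rw [← Cardinal.ord_aleph0]
    exact Cardinal.ord_lt_ord.2 hK
  obtain ⟨C, e, hC, he1, he2, he3⟩ := hV
  obtain ⟨t, ht, hti, htl⟩ := All.pr.{u}
  have htK : ∀ a < K.ord, ∀ b < K.ord, t a b < K.ord := htl K hK.le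
  obtain ⟨Z, hZ⟩ : ∃ Z : Set Ordinal.{u}, Z = {z | z < K.ord ∧ ∃ β f, Cod t K.ord β (e z) f} :=
    ⟨_, rfl⟩
  -- the ordinals which are coded
  have hex : ∀ z : Ordinal.{u}, ∃ (β : Ordinal.{u}) (f : Ordinal.{u} → Ordinal.{u}), z ∈ Z →
      Cod t K.ord β (e z) f := by
    intro z
    by_cases hz : z ∈ Z
    · have hz' := hz
      rw [hZ] at hz'
      obtain ⟨β, f, h⟩ := hz'.2
      exact ⟨β, f, fun _ => h⟩
    · exact ⟨0, id, fun h => absurd h hz⟩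
  choose ρ f hf using hex
  have hZK : ∀ z ∈ Z, z < K.ord := fun z hz => by
    rw [hZ] at hz
    exact hz.1
  -- the local values
  have hex : ∀ ξ z : Ordinal.{u}, ∃ (β : Ordinal.{u}) (g : Ordinal.{u} → Ordinal.{u}),
      (∀ a < ξ, g a < β) ∧ (∀ b < β, ∃ a < ξ, g a = b) ∧
        ∀ a < ξ, ∀ b < ξ, (g a < g b ↔ f z a < f z b) := fun ξ z => collapse (f z) ξ
  choose v g hg using hex
  -- the closing functions
  have hex0 : ∀ z : Ordinal.{u}, ∃ b : Ordinal.{u}, b < K.ord ∧ (z < K.ord → z ∉ Z →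
      ∀ ξ < K.ord, b ≤ ξ → (∀ a < ξ, ∀ b < ξ, t a b < ξ) →
        ¬ ∃ β g, Cod t ξ β (e z ∩ ξ.toZFSet) g) := by
    intro z
    by_cases hz : z < K.ord ∧ z ∉ Z
    · obtain ⟨b, hb, h⟩ := nonZ (t := t) hK hKr (e z) (fun h => hz.2 (by
        rw [hZ]; exact ⟨hz.1, h⟩))
      exact ⟨b, hb, fun _ _ => h⟩
    · exact ⟨0, hlim.bot_lt, fun h1 h2 => absurd ⟨h1, h2⟩ hz⟩
  choose b0 hb0 hb0' using hex0
  have hex1 : ∀ z z' a : Ordinal.{u}, ∃ a' : Ordinal.{u}, a' < K.ord ∧ (z ∈ Z → z' ∈ Z →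
      ρ z ≤ ρ z' → a < K.ord → f z' a' = f z a) := by
    intro z z' a
    by_cases h : z ∈ Z ∧ z' ∈ Z ∧ ρ z ≤ ρ z' ∧ a < K.ord
    · obtain ⟨h1, h2, h3, h4⟩ := h
      obtain ⟨a', ha', h5⟩ := (hf z' h2).2.1 (f z a) (((hf z h1).1 a h4).trans_le h3)
      exact ⟨a', ha', fun _ _ _ _ => h5⟩
    · exact ⟨0, hlim.bot_lt, fun h1 h2 h3 h4 => absurd ⟨h1, h2, h3, h4⟩ h⟩
  choose B1 hB1 hB1' using hex1
  have hex2 : ∀ z z' : Ordinal.{u}, ∃ a' : Ordinal.{u}, a' < K.ord ∧ (z ∈ Z → z' ∈ Z →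
      ρ z < ρ z' → f z' a' = ρ z) := by
    intro z z'
    by_cases h : z ∈ Z ∧ z' ∈ Z ∧ ρ z < ρ z'
    · obtain ⟨h1, h2, h3⟩ := h
      obtain ⟨a', ha', h5⟩ := (hf z' h2).2.1 (ρ z) h3
      exact ⟨a', ha', fun _ _ _ => h5⟩
    · exact ⟨0, hlim.bot_lt, fun h1 h2 h3 => absurd ⟨h1, h2, h3⟩ h⟩
  choose B2 hB2 hB2' using hex2
  obtain ⟨G, hG1, hG2⟩ := bd3 hKr (fun x y z => max (max (succ (t x y)) (b0 x))
    (max (max (B1 x y z) (B2 x y)) (max ω (succ x)))) fun x hx y hy z hz =>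
      max_lt (max_lt (hlim.succ_lt (htK x hx y hy)) (hb0 x))
        (max_lt (max_lt (hB1 x y z) (hB2 x y)) (max_lt hKω (hlim.succ_lt hx)))
  have hE := All.ve K hKr hK G hG1
  refine ⟨C ∩ {x | 0 < x ∧ ∀ y < x, G y < x}, Z, ρ, v, clb_inter hK hKr hC hE, fun z hz =>
    ⟨hZK z hz, bot_le.trans_lt ((hf z hz).1 0 hlim.bot_lt), lt_hs_of_code ht (he1 z).1.od (hf z hz)⟩,
    fun β h0 hβ => ?_, ?_⟩
  · obtain ⟨y, k, hy, hyK, hk⟩ := code_of_lt ht hti htK h0 hβ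
    obtain ⟨z, hz, rfl⟩ := he2 y hy hyK
    have hzZ : z ∈ Z := by
      rw [hZ]
      exact ⟨hz, β, k, hk⟩
    exact ⟨z, hzZ, (hf z hzZ).unique hk⟩
  rintro ξ ⟨hξC, hξ0, hξG⟩ hξK
  -- closure
  have hcl : ∀ x < ξ, ∀ y < ξ, ∀ z < ξ, succ (t x y) < ξ ∧ b0 x < ξ ∧ B1 x y z < ξ ∧
      B2 x y < ξ ∧ max ω (succ x) < ξ := by
    intro x hx y hy z hz
    have hw : max x (max y z) < ξ := max_lt hx (max_lt hy hz)
    have h1 := hG2 _ (hw.trans hξK) x (le_max_left _ _) y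
      ((le_max_left _ _).trans (le_max_right _ _)) z ((le_max_right _ _).trans (le_max_right _ _))
    have h2 := h1.trans (hξG _ hw)
    exact ⟨((le_max_left _ _).trans (le_max_left _ _)).trans_lt h2,
      ((le_max_right _ _).trans (le_max_left _ _)).trans_lt h2,
      (((le_max_left _ _).trans (le_max_left _ _)).trans (le_max_right _ _)).trans_lt h2,
      (((le_max_right _ _).trans (le_max_left _ _)).trans (le_max_right _ _)).trans_lt h2,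
      ((le_max_right _ _).trans (le_max_right _ _)).trans_lt h2⟩
  have hξω : ω < ξ := (le_max_left _ _).trans_lt (hcl 0 hξ0 0 hξ0 0 hξ0).2.2.2.2
  have htξ : ∀ a < ξ, ∀ b < ξ, t a b < ξ := fun a ha b hb =>
    (Order.lt_succ _).trans (hcl a ha b hb 0 hξ0).1
  have hcod : ∀ z ∈ Z, Cod t ξ (v ξ z) (e z ∩ ξ.toZFSet) (g ξ z) := by
    intro z hz
    obtain ⟨h1, h2, h3⟩ := hg ξ z
    refine ⟨h1, h2, fun a ha b hb => ?_⟩
    rw [h3 a ha b hb, ← (hf z hz).2.2 a (ha.trans hξK) b (hb.trans hξK), ZFSet.mem_inter]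
    exact ⟨fun h => h.1, fun h => ⟨h, toZFSet_mem_toZFSet_iff.2 (htξ a ha b hb)⟩⟩
  have hle : ∀ z ∈ Z, ∀ z' ∈ Z, z < ξ → z' < ξ → ρ z ≤ ρ z' → v ξ z ≤ v ξ z' := by
    intro z hz z' hz' hzξ hz'ξ hρ
    refine cmp (hg ξ z).2.1 (fun a => g ξ z' (B1 z z' a)) (fun a ha b hb hab _ => ?_)
      fun a ha _ => (hg ξ z').1 _ (hcl z hzξ z' hz'ξ a ha).2.2.1
    refine ((hg ξ z').2.2 _ (hcl z hzξ z' hz'ξ a ha).2.2.1 _ (hcl z hzξ z' hz'ξ b hb).2.2.1).2 ?_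
    rw [hB1' z z' a hz hz' hρ (ha.trans hξK), hB1' z z' b hz hz' hρ (hb.trans hξK)]
    exact ((hg ξ z).2.2 a ha b hb).1 hab
  have hlt : ∀ z ∈ Z, ∀ z' ∈ Z, z < ξ → z' < ξ → ρ z < ρ z' → v ξ z < v ξ z' := by
    intro z hz z' hz' hzξ hz'ξ hρ
    refine lt_of_le_of_lt (b := g ξ z' (B2 z z')) ?_
      ((hg ξ z').1 _ (hcl z hzξ z' hz'ξ 0 hξ0).2.2.2.1)
    refine cmp (hg ξ z).2.1 (fun a => g ξ z' (B1 z z' a)) (fun a ha b hb hab _ => ?_)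
      fun a ha _ => ?_
    · refine ((hg ξ z').2.2 _ (hcl z hzξ z' hz'ξ a ha).2.2.1 _ (hcl z hzξ z' hz'ξ b hb).2.2.1).2 ?_
      rw [hB1' z z' a hz hz' hρ.le (ha.trans hξK), hB1' z z' b hz hz' hρ.le (hb.trans hξK)]
      exact ((hg ξ z).2.2 a ha b hb).1 hab
    · refine ((hg ξ z').2.2 _ (hcl z hzξ z' hz'ξ a ha).2.2.1 _
        (hcl z hzξ z' hz'ξ 0 hξ0).2.2.2.1).2 ?_
      rw [hB1' z z' a hz hz' hρ.le (ha.trans hξK), hB2' z z' hz hz' hρ]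
      exact (hf z hz).1 a (ha.trans hξK)
  have hξlim : IsSuccLimit ξ := by
    rw [Ordinal.isSuccLimit_iff, Order.isSuccPrelimit_iff_succ_lt]
    refine ⟨hξ0.ne', fun y hy => ?_⟩
    exact (le_max_right _ _).trans_lt (hcl y hy y hy y hy).2.2.2.2
  refine ⟨hξω, hξlim, fun z hz hzξ => ⟨bot_le.trans_lt ((hg ξ z).1 0 hξ0),
    lt_hs_of_code ht (od_inter (he1 z).1.od ξ) (hcod z hz)⟩, fun β h0 hβ => ?_,
    fun z hz z' hz' hzξ hz'ξ => ⟨fun h => ?_, hlt z hz z' hz' hzξ hz'ξ⟩⟩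
  · obtain ⟨y, k, hy, hyξ, hk⟩ := code_of_lt ht hti htξ h0 hβ
    obtain ⟨z, hz, rfl⟩ := he3 ξ hξC hξK y hy hyξ
    have hzZ : z ∈ Z := by
      by_contra hn
      exact hb0' z (hz.trans hξK) hn ξ hξK (hcl z hz z hz z hz).2.1.le htξ ⟨β, k, hk⟩
    exact ⟨z, hzZ, hz, (hcod z hzZ).unique hk⟩
  · by_contra hn
    exact absurd (hle z' hz' z hz hz'ξ hzξ (not_lt.1 hn)) (not_le.2 h)

end Pool.Agent.H54.CL
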