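import Pool.Agent.H54.CL.Law2
import Pool.Agent.H7.HD.Targets6
import Pool.Agent.H17.HD.XK

/-!
# MP_e37c09_lc: the two types of regular cardinals
-/

open Ordinal Cardinal Order Set
open scoped ZFSet

universe u

namespace HD

/-- The successor of `K` in HOD and the successors in HOD of the elements of a club subset of `K`
are of cofinality `ω`; or the successor of `K` in HOD is of cofinality `K`, and for the elements
`ξ` of a club subset of `K` the successor of `ξ` in HOD is of the same cofinality as `ξ`. -/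
def TwoTypes (K : Cardinal.{u}) : Prop :=
  ((hs K.ord).cof = ℵ₀ ∧ ∃ C, Clb K.ord C ∧ ∀ ξ ∈ C, ξ < K.ord → (hs ξ).cof = ℵ₀) ∨
  ((hs K.ord).cof = K ∧ ∃ C, Clb K.ord C ∧ ∀ ξ ∈ C, ξ < K.ord → (hs ξ).cof = ξ.cof)

end HD

namespace Pool.Agent.H54.CL

open _root_.HD
open Pool.Agent.H17.HD.XK (Lst Sj sj_exists)

variable {K : Cardinal.{u}}

theorem sing_of_onto {x β : Ordinal.{u}} (hx : x < β) (h : OntoHOD x β) : SingHOD β := by
  obtain ⟨f, hf, hfn, h1⟩ := h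
  refine ⟨x, hx, f, hf, hfn, fun b hb => ?_⟩
  obtain ⟨a, ha, hab⟩ := h1 b hb
  exact ⟨a, ha, b, le_rfl, hab⟩

/-- The successor in HOD of an infinite cardinal is regular in HOD. -/
theorem hs_reg (hK : ℵ₀ ≤ K) : RegHOD (hs K.ord) := by
  have hKω : ω ≤ K.ord := by
    rw [← Cardinal.ord_aleph0]
    exact Cardinal.ord_le_ord.2 hK
  have hlim := hs_lim hKω
  refine ⟨hlim, ?_⟩
  rintro ⟨τ, hτ, f, hf, hfn, hcf⟩
  obtain ⟨en, hen⟩ := All.en.{u}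
  obtain ⟨-, hE2, -, -⟩ := All.ea en hen
  obtain ⟨t, ht1, ht2, ht3⟩ := All.pr.{u}
  have h0 : 0 < hs K.ord := bot_le.trans_lt (hs_gt _)
  have hτ0 : 0 < τ := by
    obtain ⟨a, ha, -⟩ := hcf 0 h0
    exact bot_le.trans_lt ha
  obtain ⟨R, hR, hR1, hR2, hR3⟩ := onto_fun (onto_of_lt_hs hτ0 hτ)
  have hmin : ∀ c, K.ord < c → c < hs K.ord → OntoHOD K.ord c := fun c h1 h2 =>
    onto_of_lt_hs (bot_le.trans_lt h1) h2
  have hQ : DR (Lst (Sj en K.ord)) := Lst.do (Sj.dr hE2 K.ord)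
  have hfu : ∀ x < τ, ∀ c c' : Ordinal.{u}, ZFSet.pair x.toZFSet c.toZFSet ∈ f →
      ZFSet.pair x.toZFSet c'.toZFSet ∈ f → c = c' := by
    intro x hx c c' hc hc'
    obtain ⟨w, -, hw⟩ := hfn.2 x.toZFSet (toZFSet_mem_toZFSet_iff.2 hx)
    exact toZFSet_injective ((hw _ hc).trans (hw _ hc').symm)
  have hfl : ∀ x c : Ordinal.{u}, ZFSet.pair x.toZFSet c.toZFSet ∈ f → c < hs K.ord := by
    intro x c hc
    have := hfn.1 hc
    rw [ZFSet.pair_mem_prod] at this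
    exact toZFSet_mem_toZFSet_iff.1 this.2
  obtain ⟨S, hS⟩ : ∃ S : Ordinal.{u} → Ordinal.{u} → Prop, S = fun a b =>
      ∃ i < K.ord, ∃ z < K.ord, ∃ x < τ, ∃ c, ∃ d, a = t i z ∧ R i x ∧
        ZFSet.pair x.toZFSet c.toZFSet ∈ f ∧ Lst (Sj en K.ord) c d ∧ b ∈ E2 en d z := ⟨_, rfl⟩
  have hSdr : DR S := by
    rw [hS]
    refine DO.exLtc (R := fun i w => ∃ z < K.ord, ∃ x < τ, ∃ c, ∃ d, w 0 = t i z ∧ R i x ∧
        ZFSet.pair x.toZFSet c.toZFSet ∈ f ∧ Lst (Sj en K.ord) c d ∧ w 1 ∈ E2 en d z) K.ord ?_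
    refine DO.exLtc (R := fun z w => ∃ x < τ, ∃ c, ∃ d, w 1 = t (w 0) z ∧ R (w 0) x ∧
        ZFSet.pair x.toZFSet c.toZFSet ∈ f ∧ Lst (Sj en K.ord) c d ∧ w 2 ∈ E2 en d z) K.ord ?_
    refine DO.exLtc (R := fun x w => ∃ c, ∃ d, w 2 = t (w 1) (w 0) ∧ R (w 1) x ∧
        ZFSet.pair x.toZFSet c.toZFSet ∈ f ∧ Lst (Sj en K.ord) c d ∧ w 3 ∈ E2 en d (w 0)) τ ?_
    refine DO.ex (R := fun c w => ∃ d, w 3 = t (w 2) (w 1) ∧ R (w 2) (w 0) ∧
        ZFSet.pair (w 0).toZFSet c.toZFSet ∈ f ∧ Lst (Sj en K.ord) c d ∧ w 4 ∈ E2 en d (w 1)) ?_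
    refine DO.ex (R := fun d w => w 4 = t (w 3) (w 2) ∧ R (w 3) (w 1) ∧
        ZFSet.pair (w 1).toZFSet (w 0).toZFSet ∈ f ∧ Lst (Sj en K.ord) (w 0) d ∧
          w 5 ∈ E2 en d (w 2)) ?_
    refine (DO.s3 (X := fun a b c => c = t a b) ht1 4 3 5).and ((DO.s2 hR 4 2).and
      ((DO.s2 (X := fun a b => ZFSet.pair a.toZFSet b.toZFSet ∈ f) hf.od.dr 2 1).and
        ((hQ.s2 1 0).and ?_)))
    exact DO.s3 (X := fun a b c => a ∈ E2 en c b) hE2 6 3 0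
  have hSfun : ∀ a b b', S a b → S a b' → b = b' := by
    rw [hS]
    rintro a b b' ⟨i, hi, z, hz, x, hx, c, d, ha, hRx, hxc, hcd, hb⟩
      ⟨i', hi', z', hz', x', hx', c', d', ha', hRx', hxc', hcd', hb'⟩
    obtain ⟨rfl, rfl⟩ := ht2 _ _ _ _ (ha.symm.trans ha')
    have := hR2 i hi _ _ hRx hRx'
    subst this
    have := hfu x hx _ _ hxc hxc'
    subst this
    have := hcd.uniq hcd'
    subst this
    exact hcd.1.1 _ _ _ hb hb'
  have hSlt : ∀ a b, S a b → b < hs K.ord := by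
    rw [hS]
    rintro a b ⟨i, hi, z, hz, x, hx, c, d, ha, hRx, hxc, hcd, hb⟩
    exact (hcd.1.2.1 _ _ hb).trans (hfl x c hxc)
  have hSonto : ∀ b < hs K.ord, ∃ a < K.ord, S a b := by
    intro b hb
    obtain ⟨x, hx, c, hbc, hxc⟩ := hcf (succ b) (hlim.succ_lt hb)
    obtain ⟨i, hi, hRx⟩ := hR3 x hx
    obtain ⟨d, hd⟩ := Lst.exist (sj_exists hen hmin (hfl x c hxc))
    obtain ⟨z, hz, hbz⟩ := hd.1.2.2 b ((Order.lt_succ b).trans_le hbc)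
    refine ⟨t i z, ht3 K hK _ hi _ hz, ?_⟩
    rw [hS]
    exact ⟨i, hi, z, hz, x, hx, c, d, rfl, hRx, hxc, hd, hbz⟩
  have hon : OntoHOD K.ord (hs K.ord) := by
    refine onto_of (R := fun a b => S a b ∨ ((¬ ∃ c, S a c) ∧ b = 0)) ?_
      (fun a ha => ?_) (fun a ha b b' hb hb' => ?_) fun b hb => ?_
    · refine hSdr.or (DO.not ?_ |>.and (DO.eqc 1 0))
      exact DO.ex (R := fun c w => S (w 0) c) (hSdr.s2 1 0)
    · by_cases hex : ∃ c, S a c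
      · obtain ⟨c, hc⟩ := hex
        exact ⟨c, hSlt _ _ hc, Or.inl hc⟩
      · exact ⟨0, h0, Or.inr ⟨hex, rfl⟩⟩
    · rcases hb with hb | hb <;> rcases hb' with hb' | hb'
      · exact hSfun _ _ _ hb hb'
      · exact absurd ⟨b, hb⟩ hb'.1
      · exact absurd ⟨b', hb'⟩ hb.1
      · rw [hb.2, hb'.2]
    · obtain ⟨a, ha, hab⟩ := hSonto b hb
      exact ⟨a, ha, Or.inl hab⟩
  exact lt_irrefl _ (lt_hs hon)

/-- The cofinality of the successor in HOD. -/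
theorem cof_hs (hK : ℵ₀ ≤ K) {τ₀ : Ordinal.{u}} (h1 : K.ord < τ₀) (h2 : RegHOD τ₀)
    (h3 : Few τ₀.cof.ord (SH K.ord τ₀) → τ₀.cof = ℵ₀)
    (h4 : ∀ lam, K.ord < lam → lam < τ₀ → RegHOD lam → lam.cof = K) :
    (hs K.ord).cof = K ∨ (hs K.ord).cof = ℵ₀ := by
  have hle : hs K.ord ≤ τ₀ := by
    by_contra hlt
    push Not at hlt
    exact h2.2 (sing_of_onto h1 (onto_of_lt_hs (bot_le.trans_lt h1) hlt))
  rcases hle.eq_or_lt with he | hlt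
  · right
    rw [he]
    apply h3
    rw [few_iff]
    have hsub : SH K.ord τ₀ ⊆ {K.ord} := by
      rintro τ ⟨g1, g2, g3⟩
      rcases g1.eq_or_lt with h | h
      · exact h.symm
      · exact absurd (onto_of_lt_hs (bot_le.trans_lt h) (by rw [he]; exact g2)) (g3 _ h)
    refine (Cardinal.mk_le_mk_of_subset hsub).trans_lt ?_
    rw [Cardinal.mk_singleton]
    have h5 : ℵ₀ ≤ τ₀.cof := Ordinal.aleph0_le_cof.2 h2.1
    have h6 : (1 : Cardinal.{u}) < τ₀.cof := Cardinal.one_lt_aleph0.trans_le h5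
    have h7 : Cardinal.lift.{u + 1} (1 : Cardinal.{u}) < Cardinal.lift.{u + 1} τ₀.cof :=
      Cardinal.lift_lt.2 h6
    rwa [Cardinal.lift_one] at h7
  · left
    exact h4 _ (hs_gt _) hlt (hs_reg hK)

/-- The two types. -/
theorem two_types (hK : ℵ₀ < K) (hKr : K.IsRegular) (hV : VF K)
    (hT : ∃ τ₀, K.ord < τ₀ ∧ RegHOD τ₀ ∧ (Few τ₀.cof.ord (SH K.ord τ₀) → τ₀.cof = ℵ₀) ∧
      ∀ lam, K.ord < lam → lam < τ₀ → RegHOD lam → lam.cof = K) : TwoTypes K := by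
  obtain ⟨τ₀, h1, h2, h3, h4⟩ := hT
  rcases cof_hs hK.le h1 h2 h3 h4 with h | h
  · exact Or.inr ⟨h, law2 hK hKr hV h.ge⟩
  · refine Or.inl ⟨h, ?_⟩
    obtain ⟨C, hC, h5⟩ := law1 hK hKr hV (by rw [h]; exact hK)
    exact ⟨C, hC, fun ξ hξ hξK => (h5 ξ hξ hξK).trans h⟩

end Pool.Agent.H54.CL
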