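import Pool.Agent.H7.HD.Targets9
import Pool.Agent.H7.HD.All
import Pool.Agent.H3.HD.Iter

/-!
# MP_e37c09_lc: ordinals coded by subsets, the successor in HOD
-/

open Ordinal Cardinal Order Set
open scoped ZFSet

universe u

namespace HD

/-- the successor of `x` in HOD: the least ordinal `β > x` such that in HOD there is no map from
`x` onto `β` -/
noncomputable def hs (x : Ordinal.{u}) : Ordinal.{u} := sInf {β | x < β ∧ ¬ OntoHOD x β}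

end HD

namespace Pool.Agent.H54.CL

open _root_.HD

/-! ## Ordinals -/

theorem le_of_sm {β β' : Ordinal.{u}} (F : Ordinal.{u} → Ordinal.{u})
    (h1 : ∀ a b, a < b → b < β → F a < F b) (h2 : ∀ a < β, F a < β') : β ≤ β' := by
  have h3 : ∀ a, a < β → a ≤ F a := by
    intro a
    induction a using WellFoundedLT.induction with
    | ind a ih =>
      intro ha
      by_contra hlt
      push Not at hlt
      have h4 := ih _ hlt (hlt.trans ha)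
      exact absurd h4 (not_le.2 (h1 _ _ hlt ha))
  by_contra hlt
  push Not at hlt
  exact absurd (h3 β' hlt) (not_le.2 (h2 β' hlt))

/-- `A` codes the ordinal `β` on `κ`, by means of the function `f` from `κ` onto `β` -/
def Cod (t : Ordinal.{u} → Ordinal.{u} → Ordinal.{u}) (κ β : Ordinal.{u}) (A : ZFSet.{u})
    (f : Ordinal.{u} → Ordinal.{u}) : Prop :=
  (∀ a < κ, f a < β) ∧ (∀ b < β, ∃ a < κ, f a = b) ∧
    ∀ a < κ, ∀ b < κ, ((t a b).toZFSet ∈ A ↔ f a < f b)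

/-- comparison -/
theorem cmp {κ β β' : Ordinal.{u}} {f : Ordinal.{u} → Ordinal.{u}}
    (hf : ∀ b < β, ∃ a < κ, f a = b) (G : Ordinal.{u} → Ordinal.{u})
    (h1 : ∀ a < κ, ∀ b < κ, f a < f b → f b < β → G a < G b)
    (h2 : ∀ a < κ, f a < β → G a < β') : β ≤ β' := by
  have hex : ∀ b : Ordinal.{u}, ∃ a : Ordinal.{u}, b < β → a < κ ∧ f a = b := by
    intro b
    by_cases hb : b < β
    · obtain ⟨a, ha, h⟩ := hf b hb
      exact ⟨a, fun _ => ⟨ha, h⟩⟩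
    · exact ⟨0, fun h => absurd h hb⟩
  choose g hg using hex
  refine le_of_sm (fun b => G (g b)) (fun b b' hbb hb' => ?_) fun b hb => ?_
  · obtain ⟨h3, h4⟩ := hg b (hbb.trans hb')
    obtain ⟨h5, h6⟩ := hg b' hb'
    refine h1 _ h3 _ h5 ?_ ?_
    · rw [h4, h6]; exact hbb
    · rw [h6]; exact hb'
  · obtain ⟨h3, h4⟩ := hg b hb
    exact h2 _ h3 (by rw [h4]; exact hb)

theorem Cod.unique {t : Ordinal.{u} → Ordinal.{u} → Ordinal.{u}} {κ β β' : Ordinal.{u}}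
    {A : ZFSet.{u}} {f f' : Ordinal.{u} → Ordinal.{u}} (h : Cod t κ β A f)
    (h' : Cod t κ β' A f') : β = β' :=
  le_antisymm (cmp h.2.1 f' (fun a ha b hb hab _ => (h'.2.2 a ha b hb).1 ((h.2.2 a ha b hb).2 hab))
      fun a ha _ => h'.1 a ha)
    (cmp h'.2.1 f (fun a ha b hb hab _ => (h.2.2 a ha b hb).1 ((h'.2.2 a ha b hb).2 hab))
      fun a ha _ => h.1 a ha)

/-- collapse of a function -/
theorem collapse (f : Ordinal.{u} → Ordinal.{u}) (ξ : Ordinal.{u}) :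
    ∃ (β : Ordinal.{u}) (g : Ordinal.{u} → Ordinal.{u}), (∀ a < ξ, g a < β) ∧
      (∀ b < β, ∃ a < ξ, g a = b) ∧ ∀ a < ξ, ∀ b < ξ, (g a < g b ↔ f a < f b) := by
  obtain ⟨X, hX⟩ : ∃ X : Set Ordinal.{u}, X = {z | ∃ a < ξ, f a = z} := ⟨_, rfl⟩
  obtain ⟨h1, h2, h3, -⟩ := All.vh X
  have hex : ∀ a : Ordinal.{u}, ∃ b : Ordinal.{u}, a < ξ → nth X b (f a) := by
    intro a
    by_cases ha : a < ξ
    · obtain ⟨b, -, hb⟩ := h1 (f a) (by rw [hX]; exact ⟨a, ha, rfl⟩)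
      exact ⟨b, fun _ => hb⟩
    · exact ⟨0, fun h => absurd h ha⟩
  choose g hg using hex
  have hgl : ∀ a < ξ, ∀ b < ξ, (g a < g b ↔ f a < f b) := fun a ha b hb =>
    h2 _ _ _ _ (hg a ha) (hg b hb)
  have hbd : ∃ β : Ordinal.{u}, ∀ a < ξ, g a < β := by
    refine ⟨succ (⨆ a : Iio ξ, g a.1), fun a ha => ?_⟩
    exact Order.lt_succ_of_le (Ordinal.le_iSup (fun a : Iio ξ => g a.1) ⟨a, ha⟩)
  refine ⟨sInf {β | ∀ a < ξ, g a < β}, g, csInf_mem (s := {β | ∀ a < ξ, g a < β}) hbd,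
    fun b hb => ?_, hgl⟩
  have h4 : ¬ ∀ a < ξ, g a < b := fun h => absurd (csInf_le' (s := {β | ∀ a < ξ, g a < β}) h)
    (not_le.2 hb)
  push Not at h4
  obtain ⟨a, ha, hba⟩ := h4
  rcases hba.eq_or_lt with h | h
  · exact ⟨a, ha, h.symm⟩
  · obtain ⟨y, -, hy⟩ := h3 _ _ (hg a ha) b h
    have hyX : y ∈ X := hy.1
    rw [hX] at hyX
    obtain ⟨a', ha', rfl⟩ := hyX
    refine ⟨a', ha', ?_⟩
    have h5 := h2 _ _ _ _ hy (hg a' ha')
    have h6 := h2 _ _ _ _ (hg a' ha') hy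
    rcases lt_trichotomy (g a') b with h7 | h7 | h7
    · exact absurd (h6.1 h7) (lt_irrefl _)
    · exact h7
    · exact absurd (h5.1 h7) (lt_irrefl _)

/-- the rank function of a well-founded weak order -/
theorem rank_exists (κ : Ordinal.{u}) (r : Ordinal.{u} → Ordinal.{u} → Prop)
    (hwf : WellFounded fun x y : Iio κ => r x.1 y.1)
    (h1 : ∀ a < κ, ∀ b < κ, ∀ c < κ, r a b → ¬ r c b → r a c) :
    ∃ (β : Ordinal.{u}) (f : Ordinal.{u} → Ordinal.{u}), (∀ a < κ, f a < β) ∧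
      (∀ b < β, ∃ a < κ, f a = b) ∧ ∀ a < κ, ∀ b < κ, (r a b ↔ f a < f b) := by
  classical
  obtain ⟨F, hF⟩ : ∃ F : Iio κ → Ordinal.{u}, ∀ x, F x =
      sInf {y | ∀ x' : Iio κ, r x'.1 x.1 → F x' < y} := by
    refine ⟨hwf.fix fun x ih => sInf {y | ∀ (x' : Iio κ) (h : r x'.1 x.1), ih x' h < y},
      fun x => ?_⟩
    rw [hwf.fix_eq]
  have hbd : ∀ x : Iio κ, {y | ∀ x' : Iio κ, r x'.1 x.1 → F x' < y}.Nonempty := fun x =>
    ⟨succ (⨆ a : Iio κ, F a), fun x' _ => Order.lt_succ_of_le (Ordinal.le_iSup F x')⟩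
  have hlt : ∀ x x' : Iio κ, r x'.1 x.1 → F x' < F x := by
    intro x x' h
    have h2 := csInf_mem (hbd x)
    rw [← hF x] at h2
    exact h2 x' h
  have hgt : ∀ x x' : Iio κ, F x' < F x → r x'.1 x.1 := by
    intro x x' h
    by_contra hn
    have h2 : F x ≤ F x' := by
      rw [hF x]
      refine csInf_le' fun z hz => ?_
      exact hlt _ _ (h1 _ z.2 _ x.2 _ x'.2 hz hn)
    exact absurd h2 (not_le.2 h)
  have hini : ∀ x : Iio κ, ∀ b < F x, ∃ x', F x' = b := by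
    intro x
    induction x using hwf.induction with
    | _ x ih =>
      intro b hb
      have h2 : ¬ ∀ x' : Iio κ, r x'.1 x.1 → F x' < b := by
        intro h
        rw [hF x] at hb
        exact absurd (csInf_le' (s := {y | ∀ x' : Iio κ, r x'.1 x.1 → F x' < y}) h) (not_le.2 hb)
      push Not at h2
      obtain ⟨x', hx', hbx⟩ := h2
      rcases hbx.eq_or_lt with h | h
      · exact ⟨x', h.symm⟩
      · exact ih x' hx' b h
  refine ⟨sInf {β | ∀ a : Iio κ, F a < β}, fun a => if h : a < κ then F ⟨a, h⟩ else 0,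
    fun a ha => ?_, fun b hb => ?_, fun a ha b hb => ?_⟩
  · simp only [ha, dif_pos]
    have := csInf_mem (s := {β | ∀ a : Iio κ, F a < β})
      ⟨succ (⨆ a : Iio κ, F a), fun x' => Order.lt_succ_of_le (Ordinal.le_iSup F x')⟩
    exact this ⟨a, ha⟩
  · have h2 : ¬ ∀ a : Iio κ, F a < b := fun h =>
      absurd (csInf_le' (s := {β | ∀ a : Iio κ, F a < β}) h) (not_le.2 hb)
    push Not at h2
    obtain ⟨x, hx⟩ := h2
    obtain ⟨x', hx'⟩ : ∃ x', F x' = b := by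
      rcases hx.eq_or_lt with h | h
      · exact ⟨x, h.symm⟩
      · exact hini x b h
    refine ⟨x'.1, x'.2, ?_⟩
    have : x'.1 < κ := x'.2
    simp only [this, dif_pos]
    exact hx'
  · simp only [ha, hb, dif_pos]
    exact ⟨fun h => hlt ⟨b, hb⟩ ⟨a, ha⟩ h, fun h => hgt ⟨b, hb⟩ ⟨a, ha⟩ h⟩

/-! ## HOD -/

theorem onto_of {γ β : Ordinal.{u}} {R : Ordinal.{u} → Ordinal.{u} → Prop} (hR : DR R)
    (h1 : ∀ a < γ, ∃ b < β, R a b) (h2 : ∀ a < γ, ∀ b b', R a b → R a b' → b = b')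
    (h3 : ∀ b < β, ∃ a < γ, R a b) : OntoHOD γ β := by
  refine ⟨rs γ β R, hod_rs hR γ β, ⟨fun p hp => ?_, fun z hz => ?_⟩, fun b hb => ?_⟩
  · obtain ⟨a, ha, b, hb, -, rfl⟩ := mem_rs.1 hp
    exact ZFSet.pair_mem_prod.2 ⟨toZFSet_mem_toZFSet_iff.2 ha, toZFSet_mem_toZFSet_iff.2 hb⟩
  · obtain ⟨a, ha, rfl⟩ := mem_toZFSet_iff.1 hz
    obtain ⟨b, hb, hab⟩ := h1 a ha
    refine ⟨b.toZFSet, pair_mem_rs.2 ⟨ha, hb, hab⟩, fun y hy => ?_⟩
    obtain ⟨a', ha', b', hb', hab', he⟩ := mem_rs.1 hy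
    obtain ⟨he1, rfl⟩ := ZFSet.pair_injective he
    have := toZFSet_injective he1
    subst this
    rw [h2 a ha _ _ hab' hab]
  · obtain ⟨a, ha, hab⟩ := h3 b hb
    exact ⟨a, ha, pair_mem_rs.2 ⟨ha, hb, hab⟩⟩

theorem onto_fun {γ β : Ordinal.{u}} (h : OntoHOD γ β) : ∃ R : Ordinal.{u} → Ordinal.{u} → Prop,
    DR R ∧ (∀ a < γ, ∃ b < β, R a b) ∧ (∀ a < γ, ∀ b b', R a b → R a b' → b = b') ∧
      ∀ b < β, ∃ a < γ, R a b := by
  obtain ⟨f, hf, hfn, h1⟩ := h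
  refine ⟨fun a b => ZFSet.pair a.toZFSet b.toZFSet ∈ f, hf.od.dr, fun a ha => ?_,
    fun a ha b b' hb hb' => ?_, h1⟩
  · obtain ⟨w, hw, -⟩ := hfn.2 a.toZFSet (toZFSet_mem_toZFSet_iff.2 ha)
    have h2 := hfn.1 hw
    rw [ZFSet.pair_mem_prod] at h2
    obtain ⟨b, hb, rfl⟩ := mem_toZFSet_iff.1 h2.2
    exact ⟨b, hb, hw⟩
  · obtain ⟨w, -, hw⟩ := hfn.2 a.toZFSet (toZFSet_mem_toZFSet_iff.2 ha)
    have := (hw _ hb).trans (hw _ hb').symm
    exact toZFSet_injective this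

theorem onto_le {γ β β' : Ordinal.{u}} (h : OntoHOD γ β) (h0 : 0 < β') (hle : β' ≤ β) :
    OntoHOD γ β' := by
  obtain ⟨R, hR, h1, h2, h3⟩ := onto_fun h
  refine onto_of (R := fun a b => (R a b ∧ b < β') ∨ ((¬ ∃ c < β', R a c) ∧ b = 0)) ?_
    (fun a ha => ?_) (fun a ha b b' hb hb' => ?_) fun b hb => ?_
  · refine ((DO.s2 hR 0 1).and (DO.ltc 1 β')).or (DO.not ?_ |>.and (DO.eqc 1 0))
    exact DO.exLtc (R := fun c w => R (w 0) c) β' (DO.s2 hR 1 0)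
  · by_cases hex : ∃ c < β', R a c
    · obtain ⟨c, hc, hac⟩ := hex
      exact ⟨c, hc, Or.inl ⟨hac, hc⟩⟩
    · exact ⟨0, h0, Or.inr ⟨hex, rfl⟩⟩
  · rcases hb with hb | hb <;> rcases hb' with hb' | hb'
    · exact h2 a ha _ _ hb.1 hb'.1
    · exact absurd ⟨b, hb.2, hb.1⟩ hb'.1
    · exact absurd ⟨b', hb'.2, hb'.1⟩ hb.1
    · rw [hb.2, hb'.2]
  · obtain ⟨a, ha, hab⟩ := h3 b (hb.trans_le hle)
    exact ⟨a, ha, Or.inl ⟨hab, hb⟩⟩

theorem onto_small {γ β : Ordinal.{u}} (h0 : 0 < β) (hle : β ≤ γ) : OntoHOD γ β := by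
  refine onto_of (R := fun a b => (a < β ∧ b = a) ∨ (¬ a < β ∧ b = 0)) ?_
    (fun a ha => ?_) (fun a ha b b' hb hb' => ?_) fun b hb => ?_
  · exact ((DO.ltc 0 β).and (DO.eq 1 0)).or ((DO.ltc 0 β).not.and (DO.eqc 1 0))
  · by_cases h : a < β
    · exact ⟨a, h, Or.inl ⟨h, rfl⟩⟩
    · exact ⟨0, h0, Or.inr ⟨h, rfl⟩⟩
  · rcases hb with hb | hb <;> rcases hb' with hb' | hb'
    · rw [hb.2, hb'.2]
    · exact absurd hb.1 hb'.1
    · exact absurd hb'.1 hb.1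
    · rw [hb.2, hb'.2]
  · exact ⟨b, hb.trans_le hle, Or.inl ⟨hb, rfl⟩⟩

theorem not_onto (x : Ordinal.{u}) : {β | x < β ∧ ¬ OntoHOD x β}.Nonempty := by
  refine ⟨(succ (max ℵ₀ x.card)).ord, ?_, fun h => ?_⟩
  · rw [Cardinal.lt_ord]
    exact Order.lt_succ_of_le (le_max_right _ _)
  · obtain ⟨f, hf, hfn, h1⟩ := h
    have hex : ∀ b : Iio (succ (max ℵ₀ x.card)).ord, ∃ a : Iio x,
        ZFSet.pair a.1.toZFSet b.1.toZFSet ∈ f := fun b => by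
      obtain ⟨a, ha, h⟩ := h1 b.1 b.2
      exact ⟨⟨a, ha⟩, h⟩
    choose g hg using hex
    have hinj : Function.Injective g := by
      intro b b' hbb
      have h2 := hg b
      have h3 := hg b'
      rw [← hbb] at h3
      obtain ⟨w, -, hw⟩ := hfn.2 (g b).1.toZFSet (toZFSet_mem_toZFSet_iff.2 (g b).2)
      exact Subtype.ext (toZFSet_injective ((hw _ h2).trans (hw _ h3).symm))
    have h4 := Cardinal.mk_le_of_injective hinj
    rw [Cardinal.mk_Iio_ordinal, Cardinal.mk_Iio_ordinal, Cardinal.lift_le, Cardinal.card_ord]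
      at h4
    exact absurd (h4.trans (le_max_right ℵ₀ _)) (not_le.2 (Order.lt_succ _))

theorem lt_hs {x β : Ordinal.{u}} (h : OntoHOD x β) : β < hs x := by
  by_contra hle
  push Not at hle
  have h1 := csInf_mem (not_onto x)
  exact h1.2 (onto_le h (bot_le.trans_lt h1.1) hle)

theorem hs_gt (x : Ordinal.{u}) : x < hs x := (csInf_mem (not_onto x)).1

theorem onto_of_lt_hs {x β : Ordinal.{u}} (h0 : 0 < β) (h : β < hs x) : OntoHOD x β := by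
  by_cases hx : β ≤ x
  · exact onto_small h0 hx
  · push Not at hx
    by_contra hn
    exact absurd (csInf_le' (s := {β | x < β ∧ ¬ OntoHOD x β}) ⟨hx, hn⟩) (not_le.2 h)

theorem dr_mem {t : Ordinal.{u} → Ordinal.{u} → Ordinal.{u}} (ht : DO fun w => w 2 = t (w 0) (w 1))
    {A : ZFSet.{u}} (hA : OD A) : DR fun a b => (t a b).toZFSet ∈ A := by
  refine (DO.ex (R := fun c w => c = t (w 0) (w 1) ∧ c.toZFSet ∈ A)
    (((ht.ren fun n => if n = 0 then 1 else if n = 1 then 2 else 0).congr fun w => by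
      simp).and (DO.s1 (X := fun c => c.toZFSet ∈ A) hA.ds 0))).congr fun w => ?_
  constructor
  · intro h
    exact ⟨_, rfl, h⟩
  · rintro ⟨c, rfl, h⟩
    exact h

/-- F1. -/
theorem code_of_lt {t : Ordinal.{u} → Ordinal.{u} → Ordinal.{u}}
    (ht : DO fun w => w 2 = t (w 0) (w 1))
    (hti : ∀ a b a' b', t a b = t a' b' → a = a' ∧ b = b') {ξ β : Ordinal.{u}}
    (hξ : ∀ a < ξ, ∀ b < ξ, t a b < ξ) (h0 : 0 < β) (h : β < hs ξ) :
    ∃ y f, HOD y ∧ y ⊆ ξ.toZFSet ∧ Cod t ξ β y f := by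
  obtain ⟨R, hR, h1, h2, h3⟩ := onto_fun (onto_of_lt_hs h0 h)
  have hex : ∀ a : Ordinal.{u}, ∃ b : Ordinal.{u}, a < ξ → b < β ∧ R a b := by
    intro a
    by_cases ha : a < ξ
    · obtain ⟨b, hb, hab⟩ := h1 a ha
      exact ⟨b, fun _ => ⟨hb, hab⟩⟩
    · exact ⟨0, fun h => absurd h ha⟩
  choose f hf using hex
  have hDS : DS {c | ∃ a < ξ, ∃ b < ξ, ∃ x, ∃ y, R a x ∧ R b y ∧ x < y ∧ c = t a b} := by
    refine DO.exLtc (R := fun a w => ∃ b < ξ, ∃ x, ∃ y, R a x ∧ R b y ∧ x < y ∧ w 0 = t a b) ξ ?_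
    refine DO.exLtc (R := fun b w => ∃ x, ∃ y, R (w 0) x ∧ R b y ∧ x < y ∧ w 1 = t (w 0) b) ξ ?_
    refine DO.ex (R := fun x w => ∃ y, R (w 1) x ∧ R (w 0) y ∧ x < y ∧ w 2 = t (w 1) (w 0)) ?_
    refine DO.ex (R := fun y w => R (w 2) (w 0) ∧ R (w 1) y ∧ (w 0) < y ∧ w 3 = t (w 2) (w 1)) ?_
    refine (DO.s2 hR 3 1).and ((DO.s2 hR 2 0).and ((DO.lt 1 0).and ?_))
    exact (ht.ren fun n => if n = 0 then 3 else if n = 1 then 2 else 4).congr fun w => by simp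
  refine ⟨os ξ _, f, hod_os hDS ξ, fun z hz => ?_, fun a ha => (hf a ha).1, fun b hb => ?_,
    fun a ha b hb => ?_⟩
  · obtain ⟨a, ha, -, rfl⟩ := mem_os.1 hz
    exact toZFSet_mem_toZFSet_iff.2 ha
  · obtain ⟨a, ha, hab⟩ := h3 b hb
    exact ⟨a, ha, h2 a ha _ _ (hf a ha).2 hab⟩
  · rw [ord_mem_os]
    constructor
    · rintro ⟨-, a', ha', b', hb', x, y, hx, hy, hxy, he⟩
      obtain ⟨rfl, rfl⟩ := hti _ _ _ _ he
      rw [h2 a ha _ _ (hf a ha).2 hx, h2 b hb _ _ (hf b hb).2 hy]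
      exact hxy
    · intro hlt
      exact ⟨hξ a ha b hb, a, ha, b, hb, f a, f b, (hf a ha).2, (hf b hb).2, hlt, rfl⟩

/-- F2. -/
theorem lt_hs_of_code {t : Ordinal.{u} → Ordinal.{u} → Ordinal.{u}}
    (ht : DO fun w => w 2 = t (w 0) (w 1)) {ξ β : Ordinal.{u}} {y : ZFSet.{u}}
    {f : Ordinal.{u} → Ordinal.{u}} (hy : OD y) (h : Cod t ξ β y f) : β < hs ξ := by
  obtain ⟨h1, h2, h3⟩ := h
  have hr : OD (rs ξ ξ fun a b => (t a b).toZFSet ∈ y) := od_rs (dr_mem ht hy) ξ ξ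
  obtain ⟨r, hrd⟩ : ∃ r, r = rs ξ ξ fun a b => (t a b).toZFSet ∈ y := ⟨_, rfl⟩
  rw [← hrd] at hr
  obtain ⟨g, hgd⟩ : ∃ g, g = rs ξ β fun a b => b = f a := ⟨_, rfl⟩
  have hrm : ∀ a < ξ, ∀ b < ξ, (ZFSet.pair a.toZFSet b.toZFSet ∈ r ↔ f a < f b) := by
    intro a ha b hb
    rw [hrd, pair_mem_rs, ← h3 a ha b hb]
    exact ⟨fun h => h.2.2, fun h => ⟨ha, hb, h⟩⟩
  have hg : OD g := by
    refine OD.of_dz ?_
    refine DZ.congr (P := fun v => (∀ p ∈ v 0, ∃ a ∈ ξ.toZFSet, ∃ b ∈ β.toZFSet,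
        p = ZFSet.pair a b) ∧
      (∀ a ∈ ξ.toZFSet, ∃ b ∈ β.toZFSet, ZFSet.pair a b ∈ v 0) ∧
      (∀ b ∈ β.toZFSet, ∃ a ∈ ξ.toZFSet, ZFSet.pair a b ∈ v 0) ∧
      (∀ a ∈ ξ.toZFSet, ∀ a' ∈ ξ.toZFSet, ∀ b ∈ β.toZFSet, ∀ b' ∈ β.toZFSet,
        ZFSet.pair a b ∈ v 0 → ZFSet.pair a' b' ∈ v 0 → (ZFSet.pair a a' ∈ r ↔ b ∈ b')))
      ?_ fun v => ?_
    · refine DZ.od (R := fun X v => (∀ p ∈ v 0, ∃ a ∈ X, ∃ b ∈ β.toZFSet,
          p = ZFSet.pair a b) ∧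
        (∀ a ∈ X, ∃ b ∈ β.toZFSet, ZFSet.pair a b ∈ v 0) ∧
        (∀ b ∈ β.toZFSet, ∃ a ∈ X, ZFSet.pair a b ∈ v 0) ∧
        (∀ a ∈ X, ∀ a' ∈ X, ∀ b ∈ β.toZFSet, ∀ b' ∈ β.toZFSet,
          ZFSet.pair a b ∈ v 0 → ZFSet.pair a' b' ∈ v 0 → (ZFSet.pair a a' ∈ r ↔ b ∈ b')))
        (OD.ordinal ξ) ?_
      refine DZ.od (R := fun Y v => (∀ p ∈ v 1, ∃ a ∈ v 0, ∃ b ∈ Y,
          p = ZFSet.pair a b) ∧
        (∀ a ∈ v 0, ∃ b ∈ Y, ZFSet.pair a b ∈ v 1) ∧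
        (∀ b ∈ Y, ∃ a ∈ v 0, ZFSet.pair a b ∈ v 1) ∧
        (∀ a ∈ v 0, ∀ a' ∈ v 0, ∀ b ∈ Y, ∀ b' ∈ Y,
          ZFSet.pair a b ∈ v 1 → ZFSet.pair a' b' ∈ v 1 → (ZFSet.pair a a' ∈ r ↔ b ∈ b')))
        (OD.ordinal β) ?_
      refine DZ.od (R := fun Z v => (∀ p ∈ v 2, ∃ a ∈ v 1, ∃ b ∈ v 0,
          p = ZFSet.pair a b) ∧
        (∀ a ∈ v 1, ∃ b ∈ v 0, ZFSet.pair a b ∈ v 2) ∧
        (∀ b ∈ v 0, ∃ a ∈ v 1, ZFSet.pair a b ∈ v 2) ∧
        (∀ a ∈ v 1, ∀ a' ∈ v 1, ∀ b ∈ v 0, ∀ b' ∈ v 0,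
          ZFSet.pair a b ∈ v 2 → ZFSet.pair a' b' ∈ v 2 → (ZFSet.pair a a' ∈ Z ↔ b ∈ b')))
        hr ?_
      refine DZ.and ?_ (DZ.and ?_ (DZ.and ?_ ?_))
      · exact DZ.allMem (R := fun p v => ∃ a ∈ v 2, ∃ b ∈ v 1, p = ZFSet.pair a b) 3
          (DZ.exMem (R := fun a v => ∃ b ∈ v 2, v 0 = ZFSet.pair a b) 3
            (DZ.exMem (R := fun b v => v 1 = ZFSet.pair (v 0) b) 3 (loc_pair 2 1 0).dz))
      · exact DZ.allMem (R := fun a v => ∃ b ∈ v 1, ZFSet.pair a b ∈ v 3) 2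
          (DZ.exMem (R := fun b v => ZFSet.pair (v 0) b ∈ v 4) 2 (loc_pmem 1 0 5).dz)
      · exact DZ.allMem (R := fun b v => ∃ a ∈ v 2, ZFSet.pair a b ∈ v 3) 1
          (DZ.exMem (R := fun a v => ZFSet.pair a (v 0) ∈ v 4) 3 (loc_pmem 0 1 5).dz)
      · refine DZ.allMem (R := fun a v => ∀ a' ∈ v 2, ∀ b ∈ v 1, ∀ b' ∈ v 1,
          ZFSet.pair a b ∈ v 3 → ZFSet.pair a' b' ∈ v 3 → (ZFSet.pair a a' ∈ v 0 ↔ b ∈ b')) 2 ?_
        refine DZ.allMem (R := fun a' v => ∀ b ∈ v 2, ∀ b' ∈ v 2,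
          ZFSet.pair (v 0) b ∈ v 4 → ZFSet.pair a' b' ∈ v 4 →
            (ZFSet.pair (v 0) a' ∈ v 1 ↔ b ∈ b')) 3 ?_
        refine DZ.allMem (R := fun b v => ∀ b' ∈ v 3,
          ZFSet.pair (v 1) b ∈ v 5 → ZFSet.pair (v 0) b' ∈ v 5 →
            (ZFSet.pair (v 1) (v 0) ∈ v 2 ↔ b ∈ b')) 3 ?_
        refine DZ.allMem (R := fun b' v =>
          ZFSet.pair (v 2) (v 0) ∈ v 6 → ZFSet.pair (v 1) b' ∈ v 6 →
            (ZFSet.pair (v 2) (v 1) ∈ v 3 ↔ (v 0) ∈ b')) 4 ?_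
        exact (loc_pmem 3 1 7).dz.imp ((loc_pmem 2 0 7).dz.imp
          ((loc_pmem 3 2 4).dz.iff (DZ.mem 1 0)))
    · constructor
      · intro hv
        rw [hv, hgd]
        refine ⟨fun p hp => ?_, fun a ha => ?_, fun b hb => ?_, fun a ha a' ha' b hb b' hb' h4 h5 => ?_⟩
        · obtain ⟨a, ha, b, hb, -, rfl⟩ := mem_rs.1 hp
          exact ⟨_, toZFSet_mem_toZFSet_iff.2 ha, _, toZFSet_mem_toZFSet_iff.2 hb, rfl⟩
        · obtain ⟨a', ha', rfl⟩ := mem_toZFSet_iff.1 ha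
          exact ⟨_, toZFSet_mem_toZFSet_iff.2 (h1 a' ha'), pair_mem_rs.2 ⟨ha', h1 a' ha', rfl⟩⟩
        · obtain ⟨b', hb', rfl⟩ := mem_toZFSet_iff.1 hb
          obtain ⟨a, ha, rfl⟩ := h2 b' hb'
          exact ⟨_, toZFSet_mem_toZFSet_iff.2 ha, pair_mem_rs.2 ⟨ha, hb', rfl⟩⟩
        · obtain ⟨a1, ha1, rfl⟩ := mem_toZFSet_iff.1 ha
          obtain ⟨a2, ha2, rfl⟩ := mem_toZFSet_iff.1 ha'
          obtain ⟨b1, hb1, rfl⟩ := mem_toZFSet_iff.1 hb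
          obtain ⟨b2, hb2, rfl⟩ := mem_toZFSet_iff.1 hb'
          rw [pair_mem_rs] at h4 h5
          rw [hrm a1 ha1 a2 ha2, h4.2.2, h5.2.2, toZFSet_mem_toZFSet_iff]
      · rintro ⟨h4, h5, h6, h7⟩
        -- the values
        have hex : ∀ a : Ordinal.{u}, ∃ b : Ordinal.{u}, a < ξ → b < β ∧
            ZFSet.pair a.toZFSet b.toZFSet ∈ v 0 := by
          intro a
          by_cases ha : a < ξ
          · obtain ⟨b, hb, hab⟩ := h5 _ (toZFSet_mem_toZFSet_iff.2 ha)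
            obtain ⟨b', hb', rfl⟩ := mem_toZFSet_iff.1 hb
            exact ⟨b', fun _ => ⟨hb', hab⟩⟩
          · exact ⟨0, fun h => absurd h ha⟩
        choose k hk using hex
        have hkl : ∀ a < ξ, ∀ b < ξ, (k a < k b ↔ f a < f b) := by
          intro a ha b hb
          have h8 := h7 _ (toZFSet_mem_toZFSet_iff.2 ha) _ (toZFSet_mem_toZFSet_iff.2 hb) _
            (toZFSet_mem_toZFSet_iff.2 (hk a ha).1) _ (toZFSet_mem_toZFSet_iff.2 (hk b hb).1)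
            (hk a ha).2 (hk b hb).2
          rw [hrm a ha b hb, toZFSet_mem_toZFSet_iff] at h8
          exact h8.symm
        have hu : ∀ a < ξ, ∀ b < β, ZFSet.pair a.toZFSet b.toZFSet ∈ v 0 → b = k a := by
          intro a ha b hb hab
          have h8 := h7 _ (toZFSet_mem_toZFSet_iff.2 ha) _ (toZFSet_mem_toZFSet_iff.2 ha) _
            (toZFSet_mem_toZFSet_iff.2 hb) _ (toZFSet_mem_toZFSet_iff.2 (hk a ha).1)
            hab (hk a ha).2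
          have h9 := h7 _ (toZFSet_mem_toZFSet_iff.2 ha) _ (toZFSet_mem_toZFSet_iff.2 ha) _
            (toZFSet_mem_toZFSet_iff.2 (hk a ha).1) _ (toZFSet_mem_toZFSet_iff.2 hb)
            (hk a ha).2 hab
          rw [hrm a ha a ha, toZFSet_mem_toZFSet_iff] at h8 h9
          have h10 : ¬ b < k a := fun h => lt_irrefl _ (h8.2 h)
          have h11 : ¬ k a < b := fun h => lt_irrefl _ (h9.2 h)
          exact le_antisymm (not_lt.1 h11) (not_lt.1 h10)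
        have hks : ∀ b < β, ∃ a < ξ, k a = b := by
          intro b hb
          obtain ⟨a, ha, hab⟩ := h6 _ (toZFSet_mem_toZFSet_iff.2 hb)
          obtain ⟨a', ha', rfl⟩ := mem_toZFSet_iff.1 ha
          exact ⟨a', ha', (hu a' ha' b hb hab).symm⟩
        have hkf : ∀ a < ξ, k a = f a := by
          intro a ha
          refine le_antisymm ?_ ?_
          · refine cmp (κ := ξ) (f := k) (fun b hb => hks b (hb.trans (hk a ha).1)) f
              (fun x hx y hy hxy _ => (hkl x hx y hy).1 hxy)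
              fun x hx hxa => (hkl x hx a ha).1 hxa
          · refine cmp (κ := ξ) (f := f) (fun b hb => h2 b (hb.trans (h1 a ha))) k
              (fun x hx y hy hxy _ => (hkl x hx y hy).2 hxy)
              fun x hx hxa => (hkl x hx a ha).2 hxa
        rw [hgd]
        ext p
        rw [mem_rs]
        constructor
        · intro hp
          obtain ⟨a, ha, b, hb, rfl⟩ := h4 p hp
          obtain ⟨a', ha', rfl⟩ := mem_toZFSet_iff.1 ha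
          obtain ⟨b', hb', rfl⟩ := mem_toZFSet_iff.1 hb
          exact ⟨a', ha', b', hb', by rw [hu a' ha' b' hb' hp, hkf a' ha'], rfl⟩
        · rintro ⟨a, ha, b, hb, rfl, rfl⟩
          rw [← hkf a ha]
          exact (hk a ha).2
  refine lt_hs (onto_of (R := fun a b => ZFSet.pair a.toZFSet b.toZFSet ∈ g) hg.dr
    (fun a ha => ?_) (fun a ha b b' hb hb' => ?_) fun b hb => ?_)
  · refine ⟨f a, h1 a ha, ?_⟩
    rw [hgd]
    exact pair_mem_rs.2 ⟨ha, h1 a ha, rfl⟩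
  · rw [hgd, pair_mem_rs] at hb hb'
    rw [hb.2.2, hb'.2.2]
  · obtain ⟨a, ha, rfl⟩ := h2 b hb
    refine ⟨a, ha, ?_⟩
    rw [hgd]
    exact pair_mem_rs.2 ⟨ha, hb, rfl⟩

end Pool.Agent.H54.CL
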