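import Pool.Agent.H54.CL.Law

/-!
# MP_e37c09_lc: the law of the cofinalities of the successors in HOD
-/

open Ordinal Cardinal Order Set
open scoped ZFSet

universe u

namespace Pool.Agent.H54.CL

open _root_.HD

variable {K : Cardinal.{u}}

/-! ## Successors in HOD are limit ordinals -/

theorem onto_succ {x β : Ordinal.{u}} (hx : ω ≤ x) (h : OntoHOD x β) : OntoHOD x (succ β) := by
  obtain ⟨R, hR, h1, h2, h3⟩ := onto_fun h
  have hz : ∀ a : Ordinal.{u}, a < ω → a + 1 < ω := fun a ha => isSuccLimit_omega0.succ_lt ha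
  refine onto_of (R := fun a b => (a = 0 ∧ b = β) ∨ (∃ c < ω, a = succ c ∧ R c b) ∨
    (ω ≤ a ∧ R a b)) ?_ (fun a ha => ?_) (fun a ha b b' hb hb' => ?_) fun b hb => ?_
  · refine ((DO.eqc 0 0).and (DO.eqc 1 β)).or (DO.or ?_ ((DO.gec 0 ω).and (DO.s2 hR 0 1)))
    refine DO.exLtc (R := fun c w => w 0 = succ c ∧ R c (w 1)) ω ?_
    refine DO.and ?_ (DO.s2 hR 0 2)
    refine ((DO.lt 0 1).and (DO.allLt (R := fun c w => c ≤ w 0) 1 (DO.le 0 1))).congr fun w => ?_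
    constructor
    · intro h
      change w 1 = succ (w 0) at h
      rw [h]
      exact ⟨Order.lt_succ _, fun c hc => Order.lt_succ_iff.1 hc⟩
    · rintro ⟨h1, h2⟩
      refine le_antisymm ?_ (Order.succ_le_of_lt h1)
      by_contra hlt
      exact absurd (h2 _ (not_le.1 hlt)) (not_le.2 (Order.lt_succ _))
  · by_cases h0 : a = 0
    · exact ⟨β, Order.lt_succ β, Or.inl ⟨h0, rfl⟩⟩
    · by_cases hω : a < ω
      · obtain ⟨n, rfl⟩ := Ordinal.lt_omega0.1 hω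
        rcases n with _ | n
        · exact absurd rfl h0
        · obtain ⟨b, hb, hab⟩ := h1 n ((Ordinal.natCast_lt_omega0 n).trans_le hx)
          exact ⟨b, hb.trans (Order.lt_succ β), Or.inr (Or.inl ⟨n, Ordinal.natCast_lt_omega0 n,
            by rw [Order.succ_eq_add_one]; push_cast; rfl, hab⟩)⟩
      · obtain ⟨b, hb, hab⟩ := h1 a ha
        exact ⟨b, hb.trans (Order.lt_succ β), Or.inr (Or.inr ⟨not_lt.1 hω, hab⟩)⟩
  · have e0 : ∀ c : Ordinal.{u}, (0 : Ordinal.{u}) ≠ succ c := fun c h =>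
      absurd (Order.lt_succ c) (by rw [← h]; exact not_lt.2 bot_le)
    have e1 : ¬ ω ≤ (0 : Ordinal.{u}) := not_le.2 omega0_pos
    have e2 : ∀ c < ω, ¬ ω ≤ succ c := fun c hc => not_le.2 (isSuccLimit_omega0.succ_lt hc)
    rcases hb with ⟨rfl, rfl⟩ | ⟨c, hc, rfl, hcb⟩ | ⟨hω, hab⟩ <;>
      rcases hb' with ⟨h0, rfl⟩ | ⟨c', hc', h0, hcb'⟩ | ⟨hω', hab'⟩
    · rfl
    · exact absurd h0 (e0 c')
    · exact absurd hω' e1
    · exact absurd h0.symm (e0 c)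
    · have := Order.succ_injective h0
      subst this
      exact h2 _ (hc.trans_le hx) _ _ hcb hcb'
    · exact absurd hω' (e2 c hc)
    · rw [h0] at hω
      exact absurd hω e1
    · rw [h0] at hω
      exact absurd hω (e2 c' hc')
    · exact h2 a ha _ _ hab hab'
  · rcases (Order.lt_succ_iff.1 hb).eq_or_lt with rfl | hb
    · exact ⟨0, omega0_pos.trans_le hx, Or.inl ⟨rfl, rfl⟩⟩
    · obtain ⟨a, ha, hab⟩ := h3 b hb
      by_cases hω : a < ω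
      · exact ⟨succ a, (isSuccLimit_omega0.succ_lt hω).trans_le hx,
          Or.inr (Or.inl ⟨a, hω, rfl, hab⟩)⟩
      · exact ⟨a, ha, Or.inr (Or.inr ⟨not_lt.1 hω, hab⟩)⟩

theorem hs_lim {x : Ordinal.{u}} (hx : ω ≤ x) : IsSuccLimit (hs x) := by
  rw [Ordinal.isSuccLimit_iff, Order.isSuccPrelimit_iff_succ_lt]
  refine ⟨(bot_le.trans_lt (hs_gt x)).ne', fun y hy => ?_⟩
  rcases (bot_le : (0 : Ordinal.{u}) ≤ y).eq_or_lt with rfl | h0
  · refine lt_of_le_of_lt ?_ (hs_gt x)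
    exact (Order.succ_le_of_lt omega0_pos).trans hx
  · exact lt_hs (onto_succ hx (onto_of_lt_hs h0 hy))

/-! ## The law -/

/-- (i) -/
theorem law1 (hK : ℵ₀ < K) (hKr : K.IsRegular) (hV : VF K) (hc : (hs K.ord).cof < K) :
    ∃ C, Clb K.ord C ∧ ∀ ξ ∈ C, ξ < K.ord → (hs ξ).cof = (hs K.ord).cof := by
  have hlim : IsSuccLimit K.ord := Cardinal.isSuccLimit_ord hKr.1
  have hKω : ω ≤ K.ord := by
    rw [← Cardinal.ord_aleph0]
    exact Cardinal.ord_le_ord.2 hK.le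
  obtain ⟨C, Z, ρ, v, hC, h1, h2, h3⟩ := core hK hKr hV
  -- a bounded cofinal family
  obtain ⟨B, hB, hBl, e, he⟩ := All.vg (hs K.ord) (hs_lim hKω)
  have hex : ∀ i : Ordinal.{u}, ∃ z : Ordinal.{u}, z < K.ord ∧ (0 < e i → e i < hs K.ord →
      z ∈ Z ∧ ρ z = e i) := by
    intro i
    by_cases h : 0 < e i ∧ e i < hs K.ord
    · obtain ⟨z, hz, hz'⟩ := h2 _ h.1 h.2
      exact ⟨z, (h1 z hz).1, fun _ _ => ⟨hz, hz'⟩⟩
    · exact ⟨0, hlim.bot_lt, fun h3 h4 => absurd ⟨h3, h4⟩ h⟩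
  choose z hz1 hz2 using hex
  obtain ⟨s, hs1, hs2⟩ := Pool.Agent.H3.HD.exists_bound (ρ := K.ord) (τ := (hs K.ord).cof.ord)
    (by rw [Cardinal.card_ord, hKr.cof_ord]; exact hc) z fun i _ => hz1 i
  have hcof : ∀ ξ, s < ξ → ∀ y < hs K.ord, ∃ z ∈ Z, z < ξ ∧ y < ρ z := by
    intro ξ hξ y hy
    obtain ⟨b, hb, hyb, hbB⟩ := hB.unb y hy
    obtain ⟨i, hi, rfl⟩ := he b hbB
    obtain ⟨h4, h5⟩ := hz2 i (bot_le.trans_lt hyb) hb
    exact ⟨z i, h4, (hs2 i hi).trans_lt hξ, by rw [h5]; exact hyb⟩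
  refine ⟨C ∩ {x | s < x}, clb_inter hK hKr hC ⟨fun a ha => ?_, fun x hx hx0 h => ?_⟩, ?_⟩
  · exact ⟨max (succ a) (succ s), max_lt (hlim.succ_lt ha) (hlim.succ_lt hs1),
      lt_of_lt_of_le (Order.lt_succ a) (le_max_left _ _),
      lt_of_lt_of_le (Order.lt_succ s) (le_max_right _ _)⟩
  · obtain ⟨z, hz, -, h4⟩ := h 0 hx0
    exact lt_trans h4 hz
  rintro ξ ⟨hξC, hξs⟩ hξK
  obtain ⟨h4, h5, h6, h7, h8⟩ := h3 ξ hξC hξK
  have hex : ∀ β : Ordinal.{u}, ∃ z : Ordinal.{u}, 0 < β → β < hs ξ → z ∈ Z ∧ z < ξ ∧ v ξ z = β := by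
    intro β
    by_cases h : 0 < β ∧ β < hs ξ
    · obtain ⟨z, hz, hz', hz''⟩ := h7 _ h.1 h.2
      exact ⟨z, fun _ _ => ⟨hz, hz', hz''⟩⟩
    · exact ⟨0, fun h3 h4 => absurd ⟨h3, h4⟩ h⟩
  choose w hw using hex
  classical
  refine Pool.Agent.H87.HD.XF.cof_eq (fun β => if β = 0 then 0 else ρ (w β))
    (fun a b hab hb => ?_) (fun a ha => ?_) fun y hy => ?_
  · have hb0 : 0 < b := bot_le.trans_lt hab
    obtain ⟨h9, h10, h11⟩ := hw b hb0 hb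
    by_cases ha0 : a = 0
    · simp only [ha0, if_true, hb0.ne', if_false]
      exact (h1 _ h9).2.1
    · simp only [ha0, if_false, hb0.ne']
      obtain ⟨h12, h13, h14⟩ := hw a (pos_iff_ne_zero.2 ha0) (hab.trans hb)
      refine (h8 _ h12 _ h9 h13 h10).1 ?_
      rw [h14, h11]
      exact hab
  · by_cases ha0 : a = 0
    · simp only [ha0, if_true]
      exact bot_le.trans_lt (hs_gt K.ord)
    · simp only [ha0, if_false]
      exact (h1 _ (hw a (pos_iff_ne_zero.2 ha0) ha).1).2.2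
  · obtain ⟨z, hz, hzξ, hyz⟩ := hcof ξ hξs y hy
    obtain ⟨h9, h10⟩ := h6 z hz hzξ
    refine ⟨v ξ z, h10, ?_⟩
    simp only [h9.ne', if_false]
    obtain ⟨h11, h12, h13⟩ := hw _ h9 h10
    have h14 : ¬ ρ (w (v ξ z)) < ρ z := fun h => by
      have := (h8 _ h11 _ hz h12 hzξ).2 h
      rw [h13] at this
      exact lt_irrefl _ this
    exact hyz.trans_le (not_lt.1 h14)

/-- a strictly increasing sequence above a given one -/
noncomputable def qq (r : Ordinal.{u} → Ordinal.{u}) (ζ : Ordinal.{u}) : Ordinal.{u} :=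
  sInf {x | 0 < x ∧ ∀ y : Iio ζ, qq r y.1 < x ∧ r y.1 < x}
termination_by ζ
decreasing_by exact y.2

theorem qq_spec {lam : Ordinal.{u}} (hl : IsSuccLimit lam) (hK : K ≤ lam.cof)
    (r : Ordinal.{u} → Ordinal.{u}) (hr : ∀ ζ < K.ord, r ζ < lam) : ∀ ζ < K.ord,
    qq r ζ < lam ∧ 0 < qq r ζ ∧ ∀ y < ζ, qq r y < qq r ζ ∧ r y < qq r ζ := by
  intro ζ
  induction ζ using WellFoundedLT.induction with
  | ind ζ ih =>
    intro hζ
    have hcard : ζ.card < lam.cof := (Cardinal.lt_ord.1 hζ).trans_le hK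
    obtain ⟨s1, hs1, h1⟩ := Pool.Agent.H3.HD.exists_bound hcard (qq r)
      fun i hi => (ih i hi (hi.trans hζ)).1
    obtain ⟨s2, hs2, h2⟩ := Pool.Agent.H3.HD.exists_bound hcard r fun i hi => hr i (hi.trans hζ)
    have hm : succ (max s1 s2) ∈ {x | 0 < x ∧ ∀ y : Iio ζ, qq r y.1 < x ∧ r y.1 < x} :=
      ⟨bot_le.trans_lt (Order.lt_succ _), fun y =>
        ⟨Order.lt_succ_of_le ((h1 y.1 y.2).trans (le_max_left _ _)),
          Order.lt_succ_of_le ((h2 y.1 y.2).trans (le_max_right _ _))⟩⟩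
    have h3 : qq r ζ ∈ {x | 0 < x ∧ ∀ y : Iio ζ, qq r y.1 < x ∧ r y.1 < x} := by
      rw [qq]
      exact csInf_mem ⟨_, hm⟩
    refine ⟨?_, h3.1, fun y hy => h3.2 ⟨y, hy⟩⟩
    refine lt_of_le_of_lt ?_ (hl.succ_lt (max_lt hs1 hs2))
    rw [qq]
    exact csInf_le' hm

/-- (ii) -/
theorem law2 (hK : ℵ₀ < K) (hKr : K.IsRegular) (hV : VF K) (hc : K ≤ (hs K.ord).cof) :
    ∃ C, Clb K.ord C ∧ ∀ ξ ∈ C, ξ < K.ord → (hs ξ).cof = ξ.cof := by
  have hlim : IsSuccLimit K.ord := Cardinal.isSuccLimit_ord hKr.1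
  have hKω : ω ≤ K.ord := by
    rw [← Cardinal.ord_aleph0]
    exact Cardinal.ord_le_ord.2 hK.le
  obtain ⟨C, Z, ρ, v, hC, h1, h2, h3⟩ := core hK hKr hV
  classical
  obtain ⟨r, hr⟩ : ∃ r : Ordinal.{u} → Ordinal.{u}, r = fun z => if z ∈ Z then ρ z else 0 :=
    ⟨_, rfl⟩
  have hrl : ∀ ζ < K.ord, r ζ < hs K.ord := by
    intro ζ _
    rw [hr]
    by_cases h : ζ ∈ Z
    · simp only [h, if_true]
      exact (h1 ζ h).2.2
    · simp only [h, if_false]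
      exact bot_le.trans_lt (hs_gt K.ord)
  have hq := qq_spec (hs_lim hKω) hc r hrl
  have hex : ∀ ζ : Ordinal.{u}, ∃ z : Ordinal.{u}, z < K.ord ∧ (ζ < K.ord → z ∈ Z ∧
      ρ z = qq r ζ) := by
    intro ζ
    by_cases h : ζ < K.ord
    · obtain ⟨h4, h5, -⟩ := hq ζ h
      obtain ⟨z, hz, hz'⟩ := h2 _ h5 h4
      exact ⟨z, (h1 z hz).1, fun _ => ⟨hz, hz'⟩⟩
    · exact ⟨0, hlim.bot_lt, fun h' => absurd h' h⟩
  choose z hz1 hz2 using hex
  refine ⟨C ∩ {x | 0 < x ∧ ∀ y < x, z y < x},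
    clb_inter hK hKr hC (All.ve K hKr hK z fun x _ => hz1 x), ?_⟩
  rintro ξ ⟨hξC, hξ0, hξz⟩ hξK
  obtain ⟨h4, h5, h6, h7, h8⟩ := h3 ξ hξC hξK
  refine (Pool.Agent.H87.HD.XF.cof_eq (fun ζ => v ξ (z ζ)) (fun a b hab hb => ?_) (fun a ha => ?_)
    fun y hy => ?_).symm
  · obtain ⟨h9, h10⟩ := hz2 a ((hab.trans hb).trans hξK)
    obtain ⟨h11, h12⟩ := hz2 b (hb.trans hξK)
    refine (h8 _ h9 _ h11 (hξz a (hab.trans hb)) (hξz b hb)).2 ?_
    rw [h10, h12]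
    exact ((hq b (hb.trans hξK)).2.2 a hab).1
  · exact (h6 _ (hz2 a (ha.trans hξK)).1 (hξz a ha)).2
  · rcases (bot_le : (0 : Ordinal.{u}) ≤ y).eq_or_lt with rfl | h0
    · exact ⟨0, hξ0, (h6 _ (hz2 0 (hξ0.trans hξK)).1 (hξz 0 hξ0)).1⟩
    · obtain ⟨x, hx, hxξ, rfl⟩ := h7 y h0 hy
      have hsx : succ x < ξ := h5.succ_lt hxξ
      refine ⟨succ x, hsx, ?_⟩
      obtain ⟨h9, h10⟩ := hz2 (succ x) (hsx.trans hξK)
      refine (h8 _ hx _ h9 hxξ (hξz _ hsx)).2 ?_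
      rw [h10]
      have := ((hq (succ x) (hsx.trans hξK)).2.2 x (Order.lt_succ x)).2
      rw [hr] at this
      simp only [hx, if_true] at this
      rw [hr]
      exact this

/-- `hs K` is less than the successor of `K` -/
theorem hs_card (hK : ℵ₀ < K) (hKr : K.IsRegular) (hV : VF K) : hs K.ord < (succ K).ord := by
  obtain ⟨C, Z, ρ, v, hC, h1, h2, h3⟩ := core hK hKr hV
  rw [Cardinal.lt_ord, Order.lt_succ_iff]
  have hex : ∀ b : Iio (hs K.ord), ∃ z : Iio K.ord, 0 < b.1 → z.1 ∈ Z ∧ ρ z.1 = b.1 := by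
    intro b
    by_cases h : 0 < b.1
    · obtain ⟨z, hz, hz'⟩ := h2 _ h b.2
      exact ⟨⟨z, (h1 z hz).1⟩, fun _ => ⟨hz, hz'⟩⟩
    · exact ⟨⟨0, (Cardinal.isSuccLimit_ord hKr.1).bot_lt⟩, fun h' => absurd h' h⟩
  choose g hg using hex
  have hcov : ∃ e : Ordinal.{u} → Ordinal.{u}, ∀ x ∈ Iio (hs K.ord) \ {0}, ∃ a < K.ord, e a = x := by
    refine ⟨ρ, fun x hx => ?_⟩
    have h0 : 0 < x := pos_iff_ne_zero.2 hx.2
    obtain ⟨h4, h5⟩ := hg ⟨x, hx.1⟩ h0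
    exact ⟨_, (h1 _ h4).1, h5⟩
  have h4 := cov_iff.1 hcov
  rw [Cardinal.card_ord] at h4
  have h5 : #(Iio (hs K.ord)) ≤ #((Iio (hs K.ord) \ {0} : Set Ordinal.{u})) + 1 := by
    have h6 : Iio (hs K.ord) ⊆ (Iio (hs K.ord) \ {0}) ∪ {0} := by
      intro x hx
      by_cases hx0 : x = 0
      · exact Or.inr hx0
      · exact Or.inl ⟨hx, hx0⟩
    refine (Cardinal.mk_le_mk_of_subset h6).trans ((Cardinal.mk_union_le _ _).trans ?_)
    rw [Cardinal.mk_singleton]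
  have h6 : #(Iio (hs K.ord)) ≤ Cardinal.lift.{u + 1} K := by
    refine h5.trans ?_
    have h7 : ℵ₀ ≤ Cardinal.lift.{u + 1} K := by
      rw [Cardinal.aleph0_le_lift]
      exact hK.le
    calc _ ≤ Cardinal.lift.{u + 1} K + 1 := by gcongr
      _ = Cardinal.lift.{u + 1} K := Cardinal.add_one_eq h7
  rwa [Cardinal.mk_Iio_ordinal, Cardinal.lift_le] at h6

end Pool.Agent.H54.CL
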